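import Pool.Agent.Q183.AM.H5

/-!
# Frey's inequality with the slope `1 / 2` for products of Weil restrictions of elliptic curves with
# invariants along linear recurrences

Frey's inequality says that `h_F(A) ≤ (n / 2 + ε) log N_A + c` for all abelian varieties `A` over `ℚ`
of dimension `n`, with `c` depending on `ε` and `n`. Let `A` be a product of Weil restrictions
`Res_{L i / ℚ} (E i)` of elliptic curves over number fields `L i`, so that `n = ∑ i, [L i : ℚ]`. Then
`h_F(A) = ∑ i, [L i : ℚ] h_F(E i)` (stable Faltings heights), and the conductor `N_A` is a multiple of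
the product of the `R i`, where `R i` is the product of the norms of the primes of bad reduction
of `E i` (Milne).

The invariants of the `E i` are members `j_s = -1728 A_0(s) / A_2(s)` of families which are given by
products `A_k(t) = κ_k μ_k ^ t ∏ g_j(t) ^ e_kj`, `k = 0, 1, 2`, of powers of linear recurrences, with
`A_0 + A_1 + A_2 = 0`. For example the invariants of all families of elliptic curves whose
coefficients have linear recurrences are of this kind.
-/

set_option autoImplicit false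

namespace Pool.Agent.Results.MP_c59389_nt.FamiliesAlongRecurrences

open IsDedekindDomain NumberField

/-- the modular invariant `j(τ) = E₄(τ) ^ 3 / Δ(τ) = 1 / q + 744 + ⋯` -/
noncomputable def jInv (τ : UpperHalfPlane) : ℂ :=
  ModularForm.E₄ τ ^ 3 / ModularForm.discriminant τ

/-- the archimedean term `- log (|Δ(τ)| (Im τ) ^ 6)` of the Faltings height -/
noncomputable def arch (τ : UpperHalfPlane) : ℝ :=
  -Real.log (‖ModularForm.discriminant τ‖ * τ.im ^ 6)

section One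

variable {K : Type} [Field K] [NumberField K] {J : Type} [Fintype J]

/-- Silverman's formula for the stable Faltings height (up to an additive constant which depends on
the normalisation of the metric only) of an elliptic curve with modular invariant `j ∈ K`, where
`τ w` is a point of the upper half plane with modular invariant `j` at the infinite place `w`:
`12 [K : ℚ] h_F = ∑_v log max(|j|_v, 1) + ∑_w [K_w : ℝ] arch (τ w)`. -/
noncomputable def faltings (j : K) (τ : InfinitePlace K → UpperHalfPlane) : ℝ :=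
  (∑ᶠ v : HeightOneSpectrum (𝓞 K), Real.log (max (FinitePlace.mk v j) 1) +
    ∑ w : InfinitePlace K, (w.mult : ℝ) * arch (τ w)) / (12 * Module.finrank ℚ K)

/-- the points `τ w` have modular invariant `j` -/
def IsPeriod (j : K) (τ : InfinitePlace K → UpperHalfPlane) : Prop :=
  ∀ w, jInv (τ w) = w.embedding j

/-- good reduction at `v`: some Weierstrass equation over `K` of the curve is integral at `v` and
has a discriminant which is a unit at `v` -/
def GoodAt (v : HeightOneSpectrum (𝓞 K)) (E : WeierstrassCurve K) : Prop :=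
  ∃ C : WeierstrassCurve.VariableChange K,
    v.valuation K (C • E).a₁ ≤ 1 ∧ v.valuation K (C • E).a₂ ≤ 1 ∧ v.valuation K (C • E).a₃ ≤ 1 ∧
    v.valuation K (C • E).a₄ ≤ 1 ∧ v.valuation K (C • E).a₆ ≤ 1 ∧ v.valuation K (C • E).Δ = 1

/-- the product of the norms of the primes of bad reduction; it divides the norm of the
conductor -/
noncomputable def badNorm (E : WeierstrassCurve K) : ℝ :=
  ∏ᶠ v ∈ {v : HeightOneSpectrum (𝓞 K) | ¬ GoodAt v E}, (Ideal.absNorm v.asIdeal : ℝ)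

/-- `A_k(t) = κ_k μ_k ^ t ∏ g_j(t) ^ e_kj` -/
def A (κ μ : Fin 3 → 𝓞 K) (g : J → ℕ → 𝓞 K) (e : Fin 3 → J → ℕ) (k : Fin 3) (t : ℕ) : 𝓞 K :=
  κ k * μ k ^ t * ∏ j, g j t ^ e k j

/-- the invariant `j_t = -1728 A_0(t) / A_2(t)` -/
noncomputable def inv (κ μ : Fin 3 → 𝓞 K) (g : J → ℕ → 𝓞 K) (e : Fin 3 → J → ℕ) (t : ℕ) : K :=
  -(1728 * (A κ μ g e 0 t : K) / (A κ μ g e 2 t : K))

/-- the indices `j` with exponents `e_0j, e_1j, e_2j` which are not all equal -/
def uneq (e : Fin 3 → J → ℕ) : Finset J :=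
  Finset.univ.filter fun j => ¬ (e 0 j = e 1 j ∧ e 1 j = e 2 j)

/-- `E` is an elliptic curve of invariant `j_s` with periods `τ`, and the product of the `g_j(s)` with
unequal exponents is the product of `𝔟` and of a squarefree ideal prime to `𝔟` -/
def Member (κ μ : Fin 3 → 𝓞 K) (g : J → ℕ → 𝓞 K) (e : Fin 3 → J → ℕ) (s : ℕ)
    (E : WeierstrassCurve K) (τ : InfinitePlace K → UpperHalfPlane) (𝔟 : Ideal (𝓞 K)) : Prop :=
  A κ μ g e 2 s ≠ 0 ∧ E.Δ ≠ 0 ∧ E.c₄ ^ 3 / E.Δ = inv κ μ g e s ∧ IsPeriod (inv κ μ g e s) τ ∧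
    ∃ 𝔞 : Ideal (𝓞 K), Ideal.span {∏ j ∈ uneq e, g j s} = 𝔞 * 𝔟 ∧ Squarefree 𝔞 ∧ IsCoprime 𝔞 𝔟

theorem badNorm_pos (E : WeierstrassCurve K) : 0 < badNorm E := by
  unfold badNorm
  refine finprod_mem_induction (fun x : ℝ => 0 < x) one_pos (fun a b ha hb => mul_pos ha hb) ?_
  intro v _
  exact Pool.Agent.W223.AK.Nv_pos v

theorem single {κ μ : Fin 3 → 𝓞 K} {g : J → ℕ → 𝓞 K} {e : Fin 3 → J → ℕ} {X : ℝ} (hX : 0 ≤ X)
    {s : ℕ} (h : A κ μ g e 2 s ≠ 0 → Pool.Agent.Q183.AM.SIneq κ μ g e (Real.exp X) s)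
    {E : WeierstrassCurve K} {τ : InfinitePlace K → UpperHalfPlane} {𝔟 : Ideal (𝓞 K)}
    (hm : Member κ μ g e s E τ 𝔟) :
    (Module.finrank ℚ K : ℝ) * faltings (E.c₄ ^ 3 / E.Δ) τ ≤
      1 / 2 * (Real.log (badNorm E) + Real.log (Ideal.absNorm 𝔟)) + X := by
  obtain ⟨h1, h2, h3, h4, 𝔞, h5, h6, h7⟩ := hm
  have hd : (0 : ℝ) < Module.finrank ℚ K := by exact_mod_cast Module.finrank_pos
  have hm' : ∑ᶠ v : HeightOneSpectrum (𝓞 K), Real.log (max (FinitePlace.mk v (E.c₄ ^ 3 / E.Δ)) 1) +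
      ∑ w : InfinitePlace K, (w.mult : ℝ) * arch (τ w) ≤
      6 * Real.log (badNorm E) + 6 * Real.log (Ideal.absNorm 𝔟) +
        Real.log (max (Real.exp X) 1) := h h1 E τ h2 h3 h4 𝔞 𝔟 h5 h6 h7
  rw [max_eq_left (Real.one_le_exp hX), Real.log_exp] at hm'
  have he : (Module.finrank ℚ K : ℝ) * faltings (E.c₄ ^ 3 / E.Δ) τ =
      (∑ᶠ v : HeightOneSpectrum (𝓞 K), Real.log (max (FinitePlace.mk v (E.c₄ ^ 3 / E.Δ)) 1) +
        ∑ w : InfinitePlace K, (w.mult : ℝ) * arch (τ w)) / 12 := by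
    unfold faltings
    field_simp
  rw [he]
  linarith

end One

/-- Frey's inequality with the slope `1 / 2` for the product `A` of the Weil restrictions of the
`E i`, up to the norms of the ideals `𝔟 i` and a constant `X` -/
def Frey {r : ℕ} {L : Fin r → Type} [∀ i, Field (L i)] [∀ i, NumberField (L i)]
    (E : ∀ i, WeierstrassCurve (L i)) (τ : ∀ i, InfinitePlace (L i) → UpperHalfPlane)
    (𝔟 : ∀ i, Ideal (𝓞 (L i))) (X : ℝ) : Prop :=
  ∑ i, (Module.finrank ℚ (L i) : ℝ) * faltings ((E i).c₄ ^ 3 / (E i).Δ) (τ i) ≤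
    1 / 2 * (Real.log (∏ i, badNorm (E i)) + ∑ i, Real.log (Ideal.absNorm (𝔟 i))) + X

/-- **Main theorem.** Let finitely many families of invariants as above be given, over any number
fields `L i`.
(1) For every `η > 0` there are a constant `X` and sets `S i` with at most `η n` elements among any `n`
consecutive integers, for `n` large and from some point on, such that Frey's inequality holds for all
products of Weil restrictions of elliptic curves with invariants of the `i`-th family, with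
arguments not in `S i`.
(2) For every `ε > 0` there is a constant `X` such that Frey's inequality with `X + ε ∑ s i` holds for
all arguments `s i`. -/
theorem result {r : ℕ} (L : Fin r → Type) [∀ i, Field (L i)] [∀ i, NumberField (L i)]
    (J : Fin r → Type) [∀ i, Fintype (J i)] (g : ∀ i, J i → ℕ → 𝓞 (L i))
    (hg : ∀ i j, ∃ E : LinearRecurrence (𝓞 (L i)), E.IsSolution (g i j))
    (κ μ : ∀ i, Fin 3 → 𝓞 (L i)) (hμ : ∀ i k, μ i k ≠ 0) (e : ∀ i, Fin 3 → J i → ℕ)
    (hsum : ∀ i t, ∑ k, A (κ i) (μ i) (g i) (e i) k t = 0) :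
    (∀ η : ℝ, 0 < η → ∃ (X : ℝ) (S : Fin r → Set ℕ),
      (∀ i, ∃ T z : ℕ, ∀ t n : ℕ, z ≤ t → T ≤ n →
        (({s | t ≤ s ∧ s < t + n ∧ s ∈ S i}.ncard : ℕ) : ℝ) ≤ η * n) ∧
      ∀ (s : Fin r → ℕ) (E : ∀ i, WeierstrassCurve (L i))
        (τ : ∀ i, InfinitePlace (L i) → UpperHalfPlane) (𝔟 : ∀ i, Ideal (𝓞 (L i))),
        (∀ i, s i ∉ S i ∧ Member (κ i) (μ i) (g i) (e i) (s i) (E i) (τ i) (𝔟 i)) →
          Frey E τ 𝔟 X) ∧
    ∀ ε : ℝ, 0 < ε → ∃ X : ℝ, ∀ (s : Fin r → ℕ) (E : ∀ i, WeierstrassCurve (L i))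
      (τ : ∀ i, InfinitePlace (L i) → UpperHalfPlane) (𝔟 : ∀ i, Ideal (𝓞 (L i))),
      (∀ i, Member (κ i) (μ i) (g i) (e i) (s i) (E i) (τ i) (𝔟 i)) →
        Frey E τ 𝔟 (X + ε * ∑ i, (s i : ℝ)) := by
  have key : ∀ (E : ∀ i, WeierstrassCurve (L i)) (τ : ∀ i, InfinitePlace (L i) → UpperHalfPlane)
      (𝔟 : ∀ i, Ideal (𝓞 (L i))) (X : Fin r → ℝ),
      (∀ i, (Module.finrank ℚ (L i) : ℝ) * faltings ((E i).c₄ ^ 3 / (E i).Δ) (τ i) ≤
        1 / 2 * (Real.log (badNorm (E i)) + Real.log (Ideal.absNorm (𝔟 i))) + X i) →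
      Frey E τ 𝔟 (∑ i, X i) := by
    intro E τ 𝔟 X h
    have hlog : Real.log (∏ i, badNorm (E i)) = ∑ i, Real.log (badNorm (E i)) :=
      Real.log_prod fun i _ => (badNorm_pos (E i)).ne'
    show _ ≤ _
    calc _ ≤ ∑ i, (1 / 2 * (Real.log (badNorm (E i)) + Real.log (Ideal.absNorm (𝔟 i))) + X i) :=
          Finset.sum_le_sum fun i _ => h i
      _ = _ := by rw [hlog, Finset.sum_add_distrib, ← Finset.mul_sum, Finset.sum_add_distrib]
  refine ⟨fun η hη => ?_, fun ε hε => ?_⟩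
  · have h := fun i => Pool.Agent.Q183.AM.stab_aa (g i) (hg i) (κ i) (μ i) (hμ i) (e i) (hsum i) η hη
    choose X T z hX h using h
    refine ⟨∑ i, X i, fun i => {s | ¬ (A (κ i) (μ i) (g i) (e i) 2 s ≠ 0 →
      Pool.Agent.Q183.AM.SIneq (κ i) (μ i) (g i) (e i) (Real.exp (X i)) s)},
      fun i => ⟨T i, z i, h i⟩, fun s E τ 𝔟 hs => ?_⟩
    refine key E τ 𝔟 X fun i => single (hX i) (not_not.1 (hs i).1) (hs i).2
  · have h := fun i => Pool.Agent.Q183.AM.stab_ee (g i) (hg i) (κ i) (μ i) (hμ i) (e i) (hsum i) ε hε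
    choose X hX h using h
    refine ⟨∑ i, X i, fun s E τ 𝔟 hs => ?_⟩
    have h1 := key E τ 𝔟 (fun i => X i + ε * (s i : ℝ)) fun i =>
      single (by have := hX i; positivity) (h i (s i)) (hs i)
    rw [Finset.sum_add_distrib, ← Finset.mul_sum] at h1
    exact h1

end Pool.Agent.Results.MP_c59389_nt.FamiliesAlongRecurrences
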