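import Pool.Agent.Q138.PS.WO
import Pool.Agent.Q138.AJ.Rc59389
import Pool.Agent.Y729.FW.Cond

/-!
# Frey's inequality for the elliptic curves over all number fields with invariants close to given points

`L` runs over ALL number fields (in an algebraic closure of `ℚ`) and `E` over ALL elliptic curves over `L`. `A = Res_{L/ℚ} E` is
an abelian variety over `ℚ` of dimension `n = [L : ℚ]` with `h_F(A) = n h_F(E)` and conductor `N_A` divisible by
`N = |D_L| ^ 2 * badNorm E`. Let `Y` be a metric space and let `p` be any map which associates a point of `Y` to every pair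
`(L, j)`, `j ∈ L`; for instance an embedding of the algebraic numbers in `ℂ` or in an algebraic closure of `ℚ_ℓ`. `H(L, j)` is the
height of `j` relative to `L`.

(1) Let `n ≥ 1`, `κ > 0` and `τ > 0`. There is a set `Z ⊆ Y` of Hausdorff dimension at most `a_n / (12 κ τ)` such that for `z ∈ Y`
outside `Z`, all `C` and all `c`, for all but finitely many of the pairs `(L, j)`, `[L : ℚ] = n`, with
`dist (p (L, j), z) ≤ c H(L, j) ^ (-τ)`, ALL elliptic curves `E` over `L` of invariant `j` satisfy `h_F(A) ≤ κ log N_A + C`. Here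
`a_1 = 5 / 2`, `a_n ≤ max (5 / 2) (15 / 8 + expo n / 2)` and `a_n = O(log ^ 2 n)`.

(2) For `τ > 0` there is ONE set `Z ⊆ Y` of dimension at most `5 / (12 τ)` such that for `z ∈ Y` outside `Z` this holds for ALL
`n ≥ 1` with `κ = n / 2`, that is Frey's inequality `h_F(A) ≤ (n / 2 + ε) log N_A + C` even with `ε = 0` and with any
constant `C`.
-/

set_option autoImplicit false

namespace Pool.Agent.Results.MP_c59389_nt.InvariantsNearGivenPoints

open NumberField Pool.Agent.Q138.PS Pool.Agent.Q138.AJ.Rc59389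

/-- The pairs `(L, j)` of a number field (in the algebraic closure of `ℚ`) and an element `j ∈ L`. -/
abbrev Pair : Type := Σ L : {L : IntermediateField ℚ (AlgebraicClosure ℚ) // NumberField L}, L.1

/-- the height of `j` relative to `L` -/
noncomputable def ht (s : Pair) : ℝ :=
  haveI := s.1.2
  Height.mulHeight₁ s.2

/-- For some elliptic curve `E` over `L` of invariant `j` the inequality `h_F(A) ≤ κ log N + C` fails, where
`A = Res_{L/ℚ} E`, `h_F(A) = [L : ℚ] h_F(E)` and `N = |D_L| ^ 2 * badNorm E` (a divisor of the conductor of `A`). -/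
def Violates (κ C : ℝ) (s : Pair) : Prop :=
  haveI := s.1.2
  ∃ (E : WeierstrassCurve s.1.1) (τ : InfinitePlace s.1.1 → UpperHalfPlane), E.Δ ≠ 0 ∧ E.c₄ ^ 3 / E.Δ = s.2 ∧
    IsPeriod s.2 τ ∧ κ * Real.log (badNorm E * |(discr s.1.1 : ℝ)| ^ 2) + C <
      (Module.finrank ℚ s.1.1 : ℝ) * faltings s.2 τ

theorem one_le_ht (s : Pair) : 1 ≤ ht s := by
  haveI := s.1.2
  exact Height.one_le_mulHeight₁ s.2

theorem Violates.mono {κ C C' : ℝ} (hC : C' ≤ C) {s : Pair} (h : Violates κ C s) : Violates κ C' s := by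
  haveI := s.1.2
  obtain ⟨E, τ, h1, h2, h3, h4⟩ := h
  exact ⟨E, τ, h1, h2, h3, by linarith⟩

theorem embed_injective : Function.Injective
    (fun s : Pair => ((s.1.1, (s.2 : AlgebraicClosure ℚ)) : IntermediateField ℚ (AlgebraicClosure ℚ) × AlgebraicClosure ℚ)) := by
  rintro ⟨⟨L, hL⟩, x⟩ ⟨⟨L', hL'⟩, x'⟩ h
  simp only [Prod.mk.injEq] at h
  obtain ⟨h1, h2⟩ := h
  subst h1
  have h3 : x = x' := Subtype.ext h2
  rw [h3]

/-- the count of the violating pairs of bounded height -/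
theorem count {n : ℕ} (hn : 1 ≤ n) {a κ C : ℝ} (hκ : 0 < κ) (h : ∀ δ : ℝ, 0 < δ → ∃ M : ℝ, ∀ B : ℝ, 1 ≤ B →
      (Violators n κ C B).Finite ∧ ((Violators n κ C B).ncard : ℝ) ≤ M * B ^ (a / κ + δ)) (ε : ℝ) (hε : 0 < ε) :
    ∃ M : ℝ, ∀ T : ℝ, 1 ≤ T → {s : Pair | s ∈ {s : Pair | Module.finrank ℚ s.1.1 = n ∧ Violates κ C s} ∧ ht s ≤ T}.Finite ∧
      (({s : Pair | s ∈ {s : Pair | Module.finrank ℚ s.1.1 = n ∧ Violates κ C s} ∧ ht s ≤ T}).ncard : ℝ) ≤
        M * T ^ (max a 0 / (12 * κ) + ε) := by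
  obtain ⟨c, hc, hfal⟩ := Pool.Agent.Y729.FW.fal_two
  obtain ⟨M, hM⟩ := h (12 * ε) (by positivity)
  set u : ℝ := Real.exp (c * n / 12) with hu
  have hu1 : 1 ≤ u := Real.one_le_exp (by positivity)
  have hu0 : 0 < u := by linarith
  refine ⟨|M| * u ^ (a / κ + 12 * ε), fun T hT => ?_⟩
  have hT0 : 0 < T := by linarith
  set B : ℝ := T ^ (1 / 12 : ℝ) * u with hB
  have hT1 : 1 ≤ T ^ (1 / 12 : ℝ) := Real.one_le_rpow hT (by norm_num)
  have hB1 : 1 ≤ B := one_le_mul_of_one_le_of_one_le hT1 hu1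
  obtain ⟨h1, h2⟩ := hM B hB1
  have hlogB : 12 * Real.log B = Real.log T + c * n := by
    rw [hB, Real.log_mul (by positivity) hu0.ne', Real.log_rpow hT0, hu, Real.log_exp]
    ring
  have hmaps : ∀ s ∈ {s : Pair | s ∈ {s : Pair | Module.finrank ℚ s.1.1 = n ∧ Violates κ C s} ∧ ht s ≤ T},
      ((s.1.1, (s.2 : AlgebraicClosure ℚ)) : IntermediateField ℚ (AlgebraicClosure ℚ) × AlgebraicClosure ℚ) ∈
        Violators n κ C B := by
    rintro s ⟨⟨hsn, E, τ, hE, hj, hτ, hlt⟩, hsT⟩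
    haveI := s.1.2
    refine ⟨s.1.2, E, τ, hsn, hE, by rw [hj], by rw [hj]; exact hτ, ?_, ?_⟩
    · rw [hj]
      have h3 := hfal s.1.1 s.2 τ hτ
      have h4 : Height.logHeight₁ s.2 ≤ Real.log T := by
        rw [Height.logHeight₁_eq_log_mulHeight₁]
        exact Real.log_le_log (lt_of_lt_of_le one_pos (Height.one_le_mulHeight₁ s.2)) hsT
      have h5 : (Module.finrank ℚ s.1.1 : ℝ) = n := by exact_mod_cast hsn
      rw [h5] at h3
      have h6 : 12 * ((n : ℝ) * faltings s.2 τ) ≤ 12 * Real.log B := by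
        rw [hlogB]
        calc 12 * ((n : ℝ) * faltings s.2 τ) = 12 * n * faltings s.2 τ := by ring
          _ ≤ Height.logHeight₁ s.2 + c * n := h3
          _ ≤ Real.log T + c * n := by linarith
      linarith
    · rw [hj]
      have h5 : (Module.finrank ℚ s.1.1 : ℝ) = n := by exact_mod_cast hsn
      rw [← h5]
      exact hlt
  have hfin : {s : Pair | s ∈ {s : Pair | Module.finrank ℚ s.1.1 = n ∧ Violates κ C s} ∧ ht s ≤ T}.Finite :=
    Set.Finite.of_finite_image (h1.subset (Set.image_subset_iff.2 hmaps)) embed_injective.injOn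
  refine ⟨hfin, ?_⟩
  have h3 : ({s : Pair | s ∈ {s : Pair | Module.finrank ℚ s.1.1 = n ∧ Violates κ C s} ∧ ht s ≤ T}).ncard ≤
      (Violators n κ C B).ncard := Set.ncard_le_ncard_of_injOn _ hmaps embed_injective.injOn h1
  have h3' : (({s : Pair | s ∈ {s : Pair | Module.finrank ℚ s.1.1 = n ∧ Violates κ C s} ∧ ht s ≤ T}).ncard : ℝ) ≤
      (Violators n κ C B).ncard := by exact_mod_cast h3
  have hB0 : 0 < B := by linarith
  calc (({s : Pair | s ∈ {s : Pair | Module.finrank ℚ s.1.1 = n ∧ Violates κ C s} ∧ ht s ≤ T}).ncard : ℝ) ≤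
        M * B ^ (a / κ + 12 * ε) := h3'.trans h2
    _ ≤ |M| * B ^ (a / κ + 12 * ε) := mul_le_mul_of_nonneg_right (le_abs_self M) (Real.rpow_nonneg hB0.le _)
    _ = |M| * u ^ (a / κ + 12 * ε) * T ^ (1 / 12 * (a / κ + 12 * ε) : ℝ) := by
        rw [hB, Real.mul_rpow (by positivity) hu0.le, ← Real.rpow_mul hT0.le]
        ring
    _ ≤ |M| * u ^ (a / κ + 12 * ε) * T ^ (max a 0 / (12 * κ) + ε) := by
        refine mul_le_mul_of_nonneg_left (Real.rpow_le_rpow_of_exponent_le hT ?_) (by positivity)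
        have h4 : a / κ ≤ max a 0 / κ := div_le_div_of_nonneg_right (le_max_left _ _) hκ.le
        have h5 : max a 0 / (12 * κ) = 1 / 12 * (max a 0 / κ) := by
          field_simp
        rw [h5]
        linarith

theorem expo_le {n : ℕ} (hn : 2 ≤ n) : 15 / 8 + expo n / 2 ≤ 5 / 2 * n := by
  have hn0 : (2 : ℝ) ≤ n := by exact_mod_cast hn
  have h1 : n / n.minFac ≤ n / 2 := Nat.div_le_div_left (Nat.minFac_prime (by omega)).two_le (by norm_num)
  have h2 : n ≤ 2 * (n - n / n.minFac) := by omega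
  have h3 : (n : ℝ) ≤ 2 * ((n - n / n.minFac : ℕ) : ℝ) := by exact_mod_cast h2
  have h4 : (((n + 2) * (n - 1) : ℕ) : ℝ) = (n + 2) * (n - 1) := by
    rw [Nat.cast_mul, Nat.cast_sub (by omega)]
    push_cast
    ring
  have h5 : expo n ≤ (n + 2) * (n - 1) / (2 * n) := by
    unfold expo
    rw [h4]
    apply div_le_div_of_nonneg_left _ (by positivity) (by linarith)
    nlinarith
  have h6 : ((n : ℝ) + 2) * (n - 1) / (2 * n) ≤ 5 * n - 15 / 4 := by
    rw [div_le_iff₀ (by positivity)]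
    nlinarith
  linarith

/-- **Theorem.** -/
theorem result :
    (∃ a : ℕ → ℝ,
      (∀ c : ℝ, 1 / (16 * (Real.log 2) ^ 2) < c → ∀ᶠ n : ℕ in Filter.atTop, a n ≤ c * (Real.log n) ^ 2) ∧
      a 1 = 5 / 2 ∧ (∀ n : ℕ, 2 ≤ n → a n ≤ max (5 / 2) (15 / 8 + expo n / 2)) ∧
      ∀ (Y : Type) [MetricSpace Y] [MeasurableSpace Y] [BorelSpace Y] (p : Pair → Y) (n : ℕ), 1 ≤ n → ∀ κ τ : ℝ, 0 < κ → 0 < τ →
        ∃ Z : Set Y, dimH Z ≤ ENNReal.ofReal (a n / (12 * κ * τ)) ∧ ∀ z, z ∉ Z → ∀ C c : ℝ,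
          {s : Pair | Module.finrank ℚ s.1.1 = n ∧ dist (p s) z ≤ c * ht s ^ (-τ) ∧ Violates κ C s}.Finite) ∧
    ∀ (Y : Type) [MetricSpace Y] [MeasurableSpace Y] [BorelSpace Y] (p : Pair → Y) (τ : ℝ), 0 < τ →
      ∃ Z : Set Y, dimH Z ≤ ENNReal.ofReal (5 / (12 * τ)) ∧ ∀ z, z ∉ Z → ∀ n : ℕ, 1 ≤ n → ∀ C c : ℝ,
        {s : Pair | Module.finrank ℚ s.1.1 = n ∧ dist (p s) z ≤ c * ht s ^ (-τ) ∧ Violates (n / 2) C s}.Finite := by
  obtain ⟨a, ha, ha1, ha2, hcount⟩ := Pool.Agent.Q138.AJ.Rc59389.result.1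
  have main : ∀ (Y : Type) [MetricSpace Y] [MeasurableSpace Y] [BorelSpace Y] (p : Pair → Y) (n : ℕ), 1 ≤ n →
      ∀ κ τ : ℝ, 0 < κ → 0 < τ → ∃ Z : Set Y, dimH Z ≤ ENNReal.ofReal (max (a n) 0 / (12 * κ * τ)) ∧ ∀ z, z ∉ Z → ∀ C c : ℝ,
        {s : Pair | Module.finrank ℚ s.1.1 = n ∧ dist (p s) z ≤ c * ht s ^ (-τ) ∧ Violates κ C s}.Finite := by
    intro Y _ _ _ p n hn κ τ hκ hτ
    have h1 : ∀ m : ℕ, ∃ Z : Set Y, dimH Z ≤ ENNReal.ofReal (max (a n) 0 / (12 * κ) / τ) ∧ ∀ z, z ∉ Z → ∀ c : ℝ,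
        {s : Pair | s ∈ {s : Pair | Module.finrank ℚ s.1.1 = n ∧ Violates κ (-(m : ℝ)) s} ∧
          dist (p s) z ≤ c * (ht s) ^ (-τ)}.Finite := fun m =>
      fin_lim p _ ht one_le_ht (max (a n) 0 / (12 * κ)) (by positivity)
        (fun ε hε => count hn hκ (fun δ hδ => hcount n hn κ _ δ hκ hδ) ε hε) τ hτ
    choose Z hZ hz using h1
    refine ⟨⋃ m, Z m, ?_, fun z hzZ C c => ?_⟩
    · rw [dimH_iUnion]
      refine iSup_le fun m => (hZ m).trans (le_of_eq ?_)
      rw [div_div]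
    · obtain ⟨m, hm⟩ := exists_nat_ge (-C)
      refine (hz m z (fun hh => hzZ (Set.mem_iUnion.2 ⟨_, hh⟩)) c).subset ?_
      rintro s ⟨h2, h3, h4⟩
      exact ⟨⟨h2, h4.mono (by linarith)⟩, h3⟩
  refine ⟨⟨fun n => max (a n) 0, ?_, ?_, ?_, main⟩, ?_⟩
  · intro c hc
    have hc0 : 0 < c := lt_of_le_of_lt (by positivity) hc
    filter_upwards [ha c hc] with n hn
    exact max_le hn (by positivity)
  · simp only [ha1]
    norm_num
  · intro n hn
    exact max_le (ha2 n hn) (le_max_of_le_left (by norm_num))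
  · intro Y _ _ _ p τ hτ
    have h1 : ∀ n : ℕ, ∃ Z : Set Y, dimH Z ≤ ENNReal.ofReal (5 / (12 * τ)) ∧ ∀ z, z ∉ Z → 1 ≤ n → ∀ C c : ℝ,
        {s : Pair | Module.finrank ℚ s.1.1 = n ∧ dist (p s) z ≤ c * ht s ^ (-τ) ∧ Violates (n / 2) C s}.Finite := by
      intro n
      rcases Nat.eq_zero_or_pos n with rfl | hn
      · exact ⟨∅, by simp, fun z _ h => by omega⟩
      · have hn0 : (0 : ℝ) < n := by exact_mod_cast hn
        obtain ⟨Z, hZ, hz⟩ := main Y p n hn (n / 2) τ (by positivity) hτ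
        refine ⟨Z, hZ.trans (ENNReal.ofReal_le_ofReal ?_), fun z hzZ _ => hz z hzZ⟩
        have h2 : max (a n) 0 ≤ 5 / 2 * n := by
          refine max_le ?_ (by positivity)
          rcases Nat.lt_or_ge 1 n with h3 | h3
          · refine (ha2 n h3).trans (max_le ?_ (expo_le h3))
            have : (1 : ℝ) ≤ n := by exact_mod_cast hn
            linarith
          · have h4 : n = 1 := by omega
            subst h4
            rw [ha1]
            norm_num
        rw [div_le_div_iff₀ (by positivity) (by positivity)]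
        have h5 : max (a n) 0 * (12 * τ) ≤ 5 / 2 * n * (12 * τ) := mul_le_mul_of_nonneg_right h2 (by positivity)
        linarith
    choose Z hZ hz using h1
    refine ⟨⋃ n, Z n, ?_, fun z hzZ n hn => hz n z (fun hh => hzZ (Set.mem_iUnion.2 ⟨_, hh⟩)) hn⟩
    rw [dimH_iUnion]
    exact iSup_le hZ

end Pool.Agent.Results.MP_c59389_nt.InvariantsNearGivenPoints
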