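import Pool.Agent.Q272.FR.Prod

/-!
Frey's height conjecture for products of elliptic curves over `ℚ`: the sets of the limit points of
`h_F(A) / log N_A`, where `h_F` is the stable Faltings height, along the products of `n` elliptic
curves from a class of elliptic curves that is closed under quadratic twists.
-/

set_option autoImplicit false

namespace Pool.Agent.Results.MP_c59389_nt.ProductsOfEllipticCurves

open Finset

/-- `W` is a global minimal Weierstrass equation: `Δ ≠ 0`, and `|Δ|` is smallest among all integral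
Weierstrass equations that are obtained from `W` by a change of variables over `ℚ` -/
def IsGlobalMinimal (W : WeierstrassCurve ℤ) : Prop :=
  W.Δ ≠ 0 ∧ ∀ W' : WeierstrassCurve ℤ,
    (∃ C : WeierstrassCurve.VariableChange ℚ,
      C • W.map (Int.castRingHom ℚ) = W'.map (Int.castRingHom ℚ)) → |W.Δ| ≤ |W'.Δ|

/-- the prime-to-6 part of the conductor of a global minimal equation: the product over the primes
`p ≥ 5` dividing `Δ` of `p` (multiplicative reduction, `p ∤ c₄`) or `p²` (additive, `p ∣ c₄`) -/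
def conductor6 (W : WeierstrassCurve ℤ) : ℕ :=
  ∏ p ∈ W.Δ.natAbs.primeFactors.filter (fun p : ℕ => 5 ≤ p),
    if ((p : ℕ) : ℤ) ∣ W.c₄ then (p : ℕ) ^ 2 else p

/-- `N` is, up to a bounded factor, the prime-to-6 part of the conductor. The conductor itself has
this property, since its exponents at `2` and `3` are at most `8` and `5` -/
def IsConductor (N : WeierstrassCurve ℤ → ℝ) : Prop :=
  ∃ C : ℝ, ∀ W, IsGlobalMinimal W → conductor6 W ≤ N W ∧ N W ≤ C * conductor6 W

/-- the modular invariant `c₄³ / Δ` of the curve -/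
noncomputable def j (W : WeierstrassCurve ℤ) : ℚ := (W.c₄ : ℚ) ^ 3 / W.Δ

/-- the modular invariant `E₄³ / Δ` of a point of the upper half plane -/
noncomputable def jInv (τ : UpperHalfPlane) : ℂ :=
  ModularForm.E₄ τ ^ 3 / ModularForm.discriminant τ

/-- the elliptic curve is over `ℂ` isomorphic to `ℂ / (ℤ + ℤ τ)` -/
def IsPeriod (W : WeierstrassCurve ℤ) (τ : UpperHalfPlane) : Prop := jInv τ = (j W : ℂ)

/-- the stable Faltings height of the elliptic curve, up to an additive constant that does not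
depend on the curve, by Silverman's formula: the twelfth part of the logarithm of the denominator
of the `j`-invariant, minus `log (|Δ(τ)| (Im τ)⁶)` -/
noncomputable def faltings (W : WeierstrassCurve ℤ) (τ : UpperHalfPlane) : ℝ :=
  (Real.log (j W).den - Real.log (‖ModularForm.discriminant τ‖ * τ.im ^ 6)) / 12

/-- `W 1, …, W n` are `n` elliptic curves with the property `P`, with the periods `τ 1, …, τ n` -/
def Factors (P : WeierstrassCurve ℤ → Prop) {n : ℕ} (W : Fin n → WeierstrassCurve ℤ)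
    (τ : Fin n → UpperHalfPlane) : Prop :=
  ∀ i, IsGlobalMinimal (W i) ∧ P (W i) ∧ IsPeriod (W i) (τ i)

/-- `x` is a limit of `h_F(A) / log N_A` along products `A` of `n` elliptic curves over `ℚ` with
the property `P`, for which `N_A` tends to infinity -/
def LimitPoint (n : ℕ) (N : WeierstrassCurve ℤ → ℝ) (P : WeierstrassCurve ℤ → Prop)
    (x : ℝ) : Prop :=
  ∀ ε M : ℝ, 0 < ε → ∃ (W : Fin n → WeierstrassCurve ℤ) (τ : Fin n → UpperHalfPlane),
    Factors P W τ ∧ M < ∏ i, N (W i) ∧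
    |(∑ i, faltings (W i) (τ i)) / Real.log (∏ i, N (W i)) - x| < ε

/-- the inequality `h_F(A) ≤ κ log N_A + c`, with some constant `c`, for the products `A` of `n`
elliptic curves over `ℚ` with the property `P` -/
def Inequality (n : ℕ) (N : WeierstrassCurve ℤ → ℝ) (P : WeierstrassCurve ℤ → Prop)
    (κ : ℝ) : Prop :=
  ∃ c : ℝ, ∀ (W : Fin n → WeierstrassCurve ℤ) (τ : Fin n → UpperHalfPlane), Factors P W τ →
    ∑ i, faltings (W i) (τ i) ≤ κ * Real.log (∏ i, N (W i)) + c

/-- Frey's conjecture for the products of `n` elliptic curves over `ℚ` with the property `P` -/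
def FreyConjecture (n : ℕ) (N : WeierstrassCurve ℤ → ℝ) (P : WeierstrassCurve ℤ → Prop) : Prop :=
  ∀ ε : ℝ, 0 < ε → Inequality n N P ((n : ℝ) / 2 + ε)

/-- `P` is invariant under isomorphisms over `ℚ` and quadratic twists (the curve with the
invariants `d² c₄`, `d³ c₆` is the twist by `d`) -/
def TwistClosed (P : WeierstrassCurve ℤ → Prop) : Prop :=
  ∀ (W W' : WeierstrassCurve ℤ) (d : ℚ), W.Δ ≠ 0 → d ≠ 0 → (W'.c₄ : ℚ) = d ^ 2 * W.c₄ →
    (W'.c₆ : ℚ) = d ^ 3 * W.c₆ → P W → P W'

/-- all points of order two are rational -/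
def FullTwoTorsion (W : WeierstrassCurve ℤ) : Prop :=
  ∃ r₁ r₂ r₃ : ℚ, ∀ x : ℚ,
    4 * x ^ 3 + W.b₂ * x ^ 2 + 2 * W.b₄ * x + W.b₆ = 4 * (x - r₁) * (x - r₂) * (x - r₃)

/-- the product of the primes dividing `n` -/
def rad (n : ℕ) : ℕ := ∏ p ∈ n.primeFactors, p

/-- the abc inequality with the exponent `l` and some constant -/
def Abc (l : ℝ) : Prop :=
  ∃ C : ℝ, ∀ a b c : ℕ, 0 < a → 0 < b → a + b = c → Nat.Coprime a b →
    (c : ℝ) ≤ C * (rad (a * b * c) : ℝ) ^ l

theorem st_eq (W : WeierstrassCurve ℤ) (τ : UpperHalfPlane) :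
    faltings W τ = Pool.Agent.Q272.FR.st W τ := by
  unfold faltings Pool.Agent.Q272.FR.st Pool.Agent.TH876.FH.arch
  rw [← sub_eq_add_neg]
  rfl

theorem lim_iff (n : ℕ) (N : WeierstrassCurve ℤ → ℝ) (P : WeierstrassCurve ℤ → Prop) (x : ℝ) :
    LimitPoint n N P x ↔ Pool.Agent.Q272.FR.LimN n N P x := by
  unfold LimitPoint Pool.Agent.Q272.FR.LimN
  simp only [st_eq]
  exact Iff.rfl

theorem ineq_iff (n : ℕ) (N : WeierstrassCurve ℤ → ℝ) (P : WeierstrassCurve ℤ → Prop) (κ : ℝ) :
    Inequality n N P κ ↔ Pool.Agent.Q272.FR.FrN n N P κ := by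
  unfold Inequality Pool.Agent.Q272.FR.FrN
  simp only [st_eq]
  exact Iff.rfl

/-- Let `N` be the conductor of the elliptic curves over `ℚ`, up to bounded factors.

(1) For every nonempty class `P` of elliptic curves over `ℚ` that is closed under quadratic twists
there is `0 ≤ S ≤ ∞` such that for every `n ≥ 1` the limit points of `h_F(A) / log N_A` along the
products `A` of `n` curves of the class form the interval `[0, S]`; the inequality
`h_F(A) ≤ κ log N_A + c` holds for these `A` (with some `c`) for all `κ > S`, and for no `κ < S`;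
and Frey's conjecture holds for them if and only if `S ≤ n / 2`.
(2) For the class of all elliptic curves over `ℚ`, `S ≥ 1 / 2`; Frey's conjecture holds for all
elliptic curves if and only if `S = 1 / 2`, and if and only if the abc inequality holds with all
exponents `l > 1`. If the abc inequality holds with an exponent `1 ≤ l < 6 / 5`, then
`S ≤ l / (2 (6 - 5 l))`. Hence Frey's conjecture for the products of `n` elliptic curves follows
from the abc inequality with the exponent `6 n / (5 n + 1)`, and implies the abc inequality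
with all exponents `l > n`.
(3) For the class of the elliptic curves with full rational 2-torsion, `S = λ / 2`, where `λ` is the
infimum of the exponents `l ≥ 1` with which the abc inequality holds; Frey's conjecture for the
products of `n` such curves is equivalent to the abc inequality with all exponents `l > n`.
(4) For the class of the elliptic curves with a fixed `j`-invariant, `S = 0`. -/
theorem result (N : WeierstrassCurve ℤ → ℝ) (hN : IsConductor N) :
    (∀ P : WeierstrassCurve ℤ → Prop, TwistClosed P → (∃ W, IsGlobalMinimal W ∧ P W) →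
      ∃ S : EReal, 0 ≤ S ∧ ∀ n : ℕ, 1 ≤ n →
        (∀ x : ℝ, LimitPoint n N P x ↔ 0 ≤ x ∧ (x : EReal) ≤ S) ∧
        (∀ κ : ℝ, (S < κ → Inequality n N P κ) ∧ (Inequality n N P κ → S ≤ κ)) ∧
        (FreyConjecture n N P ↔ S ≤ ((n / 2 : ℝ) : EReal))) ∧
    (∃ S : EReal, ((1 / 2 : ℝ) : EReal) ≤ S ∧
      (∀ n : ℕ, 1 ≤ n → ∀ x : ℝ,
        LimitPoint n N (fun _ => True) x ↔ 0 ≤ x ∧ (x : EReal) ≤ S) ∧
      (FreyConjecture 1 N (fun _ => True) ↔ S = ((1 / 2 : ℝ) : EReal)) ∧
      (∀ l : ℝ, 1 ≤ l → l < 6 / 5 → Abc l → S ≤ ((l / (2 * (6 - 5 * l)) : ℝ) : EReal))) ∧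
    (FreyConjecture 1 N (fun _ => True) ↔ ∀ l : ℝ, 1 < l → Abc l) ∧
    (∀ n : ℕ, 1 ≤ n →
      (Abc (6 * n / (5 * n + 1)) → FreyConjecture n N (fun _ => True)) ∧
      (FreyConjecture n N (fun _ => True) → ∀ l : ℝ, (n : ℝ) < l → Abc l)) ∧
    (∀ n : ℕ, 1 ≤ n →
      (∀ x : ℝ, LimitPoint n N FullTwoTorsion x ↔ 0 ≤ x ∧ ∀ l : ℝ, 1 ≤ l → Abc l → x ≤ l / 2) ∧
      (FreyConjecture n N FullTwoTorsion ↔ ∀ l : ℝ, (n : ℝ) < l → Abc l)) ∧
    (∀ (q : ℚ) (n : ℕ), 1 ≤ n → ∀ x : ℝ, LimitPoint n N (fun W => j W = q) x ↔ x = 0) := by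
  obtain ⟨C, hC⟩ := hN
  have hN' : ∀ W, IsGlobalMinimal W → (conductor6 W : ℝ) ≤ N W ∧
      N W ≤ max C 1 * conductor6 W := fun W hW =>
    ⟨(hC W hW).1, (hC W hW).2.trans
      (mul_le_mul_of_nonneg_right (le_max_left _ _) (Nat.cast_nonneg _))⟩
  have hN1 : ∀ W, IsGlobalMinimal W → (1 : ℝ) ≤ N W := by
    intro W hW
    have h1 : (1 : ℝ) ≤ conductor6 W := by
      have h2 : 0 < conductor6 W := Pool.Agent.Q272.TR.condW_pos W
      exact_mod_cast h2
    exact h1.trans (hN' W hW).1
  -- Frey's conjecture in terms of the library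
  have hFrey : ∀ (P : WeierstrassCurve ℤ → Prop) (S : EReal), Pool.Agent.Q272.FR.Cls N P S →
      ∀ n : ℕ, 1 ≤ n → (FreyConjecture n N P ↔ S ≤ ((n / 2 : ℝ) : EReal)) := by
    intro P S hS n hn
    refine Iff.trans ?_ (hS.frey hN1 hn ((n : ℝ) / 2))
    exact forall_congr' fun ε => forall_congr' fun _ => ineq_iff n N P _
  have hIneq : ∀ (P : WeierstrassCurve ℤ → Prop) (S : EReal), Pool.Agent.Q272.FR.Cls N P S →
      ∀ n : ℕ, 1 ≤ n → ∀ κ : ℝ, (S < κ → Inequality n N P κ) ∧ (Inequality n N P κ → S ≤ κ) := by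
    intro P S hS n hn κ
    obtain ⟨h1, h2⟩ := hS.frN hN1 hn κ
    exact ⟨fun h => (ineq_iff n N P κ).mpr (h1 h), fun h => h2 ((ineq_iff n N P κ).mp h)⟩
  have hLim : ∀ (P : WeierstrassCurve ℤ → Prop) (S : EReal), Pool.Agent.Q272.FR.Cls N P S →
      ∀ n : ℕ, 1 ≤ n → ∀ x : ℝ, (LimitPoint n N P x ↔ 0 ≤ x ∧ (x : EReal) ≤ S) :=
    fun P S hS n hn x => (lim_iff n N P x).trans (hS.limN hN1 hn x)
  -- the three classes
  obtain ⟨S0, h0⟩ := Pool.Agent.Q272.FR.cls_of (P := fun _ => True) (le_max_right C 1) hN'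
    (Q := fun _ _ => True) (fun _ _ _ _ _ => Iff.rfl) Pool.Agent.Q272.LP.tc_all
    ⟨0, 1, by
      simpa using Pool.Agent.Q272.LP.zero_min (p := 5) (k := 0) (by norm_num) (by norm_num),
      trivial⟩
  obtain ⟨S2, h2⟩ := Pool.Agent.Q272.FR.cls_of (P := FullTwoTorsion) (le_max_right C 1) hN'
    Pool.Agent.Q272.LP.full_iff Pool.Agent.Q272.LP.tc_full
    ⟨_, _, Pool.Agent.Q272.LP.tri_min (A := 1) (B := 1) isCoprime_one_left (by norm_num),
      Pool.Agent.Q272.LP.tri_full 1 1⟩
  have hfull : ∀ x : ℝ, Pool.Agent.Q272.FR.LimF N FullTwoTorsion x ↔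
      0 ≤ x ∧ ∀ l : ℝ, 1 ≤ l → Abc l → x ≤ l / 2 := by
    intro x
    refine ((Pool.Agent.Q272.FR.limF_iff_J N FullTwoTorsion x).trans
      (Pool.Agent.Q272.FR.limJ_iff (le_max_right C 1) hN' Pool.Agent.Q272.LP.full_iff
        (12 * x))).trans ((Pool.Agent.Q272.FR.lim_fullJ (12 * x)).trans ?_)
    constructor
    · rintro ⟨g1, g2⟩
      refine ⟨by linarith, fun l hl habc => ?_⟩
      have := g2 l hl habc
      linarith
    · rintro ⟨g1, g2⟩
      refine ⟨by linarith, fun l hl habc => ?_⟩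
      have := g2 l hl habc
      linarith
  -- full 2-torsion and abc
  have hfl : ∀ n : ℕ, 1 ≤ n → (S2 ≤ ((n / 2 : ℝ) : EReal) ↔ ∀ l : ℝ, (n : ℝ) < l → Abc l) := by
    intro n hn
    have hn1 : (1 : ℝ) ≤ n := by exact_mod_cast hn
    constructor
    · intro hS l hl
      by_contra hno
      have h3 : Pool.Agent.Q272.FR.LimF N FullTwoTorsion (l / 2) := by
        refine (hfull _).mpr ⟨by linarith, fun m hm habc => ?_⟩
        by_contra hcon
        push Not at hcon
        exact hno (Pool.Agent.Q272.FR.abc_mono (by linarith) habc)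
      have h4 := ((h2.lim _).mp h3).2.trans hS
      rw [EReal.coe_le_coe_iff] at h4
      linarith
    · intro hall
      by_contra hcon
      push Not at hcon
      obtain ⟨y, hy1, hy2⟩ := EReal.lt_iff_exists_real_btwn.mp hcon
      have hy1' : (n : ℝ) / 2 < y := by exact_mod_cast hy1
      have h3 := (hfull y).mp ((h2.lim y).mpr ⟨by linarith, hy2.le⟩)
      have h4 := h3.2 ((n + 2 * y) / 2) (by linarith) (hall _ (by linarith))
      linarith
  have hS20 : S2 ≤ S0 := by
    by_contra hcon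
    push Not at hcon
    obtain ⟨y, hy1, hy2⟩ := EReal.lt_iff_exists_real_btwn.mp hcon
    have hy0 : 0 ≤ y := by
      have : ((0 : ℝ) : EReal) ≤ y := le_trans (by exact_mod_cast h0.nonneg) hy1.le
      exact_mod_cast this
    have h3 := (h2.lim y).mpr ⟨hy0, hy2.le⟩
    have h4 : Pool.Agent.Q272.FR.LimF N (fun _ => True) y := by
      intro ε M hε
      obtain ⟨W, τ, g1, -, g3, g4, g5⟩ := h3 ε M hε
      exact ⟨W, τ, g1, trivial, g3, g4, g5⟩
    exact absurd hy1 (not_lt.mpr ((h0.lim y).mp h4).2)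
  have hS2 : ((1 / 2 : ℝ) : EReal) ≤ S2 :=
    ((h2.lim (1 / 2)).mp ((hfull _).mpr ⟨by norm_num, fun l hl _ => by linarith⟩)).2
  have hup : ∀ l : ℝ, 1 ≤ l → l < 6 / 5 → Abc l →
      S0 ≤ ((l / (2 * (6 - 5 * l)) : ℝ) : EReal) := by
    intro l g1 g2 habc
    have h65 : 0 < 6 - 5 * l := by linarith
    have h3 := Pool.Agent.Q272.FR.frN_of 1 hN1 (Pool.Agent.Q272.FR.frey_of_sz
      (P := fun _ => True) (fun W hW => (hN' W hW).1) (by positivity)
      (Pool.Agent.Q272.TR.sz_of_abc g1 g2 habc))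
    have h4 := (h0.frN hN1 le_rfl _).2 h3
    have h5 : 6 * l / (6 - 5 * l) / 12 = l / (2 * (6 - 5 * l)) := by
      field_simp
      ring
    rwa [h5] at h4
  have hone : ((1 / 2 : ℝ) : EReal) = (((1 : ℕ) / 2 : ℝ) : EReal) := by norm_num
  have hF1 : FreyConjecture 1 N (fun _ => True) ↔ S0 = ((1 / 2 : ℝ) : EReal) := by
    rw [hFrey _ S0 h0 1 le_rfl, ← hone]
    exact ⟨fun h => le_antisymm h (hS2.trans hS20), fun h => h.le⟩
  have habc1 : FreyConjecture 1 N (fun _ => True) ↔ ∀ l : ℝ, 1 < l → Abc l := by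
    constructor
    · intro h
      have h3 := (hFrey _ S0 h0 1 le_rfl).mp h
      have h4 := (hfl 1 le_rfl).mp (hS20.trans h3)
      intro l hl
      exact h4 l (by exact_mod_cast hl)
    · intro h
      rw [hFrey _ S0 h0 1 le_rfl, ← hone]
      by_contra hcon
      push Not at hcon
      obtain ⟨y, hy1, hy2⟩ := EReal.lt_iff_exists_real_btwn.mp hcon
      have hy1' : (1 / 2 : ℝ) < y := EReal.coe_lt_coe_iff.mp hy1
      -- `l = 12 y / (1 + 10 y)` satisfies `l / (2 (6 - 5 l)) = y`
      have hp : 0 < 1 + 10 * y := by linarith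
      have g1 : 1 < 12 * y / (1 + 10 * y) := by
        rw [lt_div_iff₀ hp]
        linarith
      have g2 : 12 * y / (1 + 10 * y) < 6 / 5 := by
        rw [div_lt_div_iff₀ hp (by norm_num)]
        linarith
      have h3 := hup _ g1.le g2 (h _ g1)
      have h4 : 12 * y / (1 + 10 * y) / (2 * (6 - 5 * (12 * y / (1 + 10 * y)))) = y := by
        have h5 : 6 - 5 * (12 * y / (1 + 10 * y)) = 6 / (1 + 10 * y) := by
          field_simp
          ring
        rw [h5]
        field_simp
        ring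
      rw [h4] at h3
      exact absurd hy2 (not_lt.mpr h3)
  refine ⟨?_, ⟨S0, hS2.trans hS20, hLim _ S0 h0, hF1, hup⟩, habc1, ?_, ?_, ?_⟩
  · intro P hP hne
    have hPQ := Pool.Agent.Q272.LP.twist_iff hP
    have hQ := Pool.Agent.Q272.LP.tc_short hP
    obtain ⟨W, hW, hPW⟩ := hne
    obtain ⟨a, b, u, hr⟩ := Pool.Agent.Q272.LP.exists_short W hW
    obtain ⟨S, hS⟩ := Pool.Agent.Q272.FR.cls_of (P := P) (le_max_right C 1) hN' hPQ hQ
      ⟨a, b, hr.min, (hPQ W a b u hr).mp hPW⟩
    exact ⟨S, hS.nonneg, fun n hn => ⟨hLim P S hS n hn, hIneq P S hS n hn, hFrey P S hS n hn⟩⟩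
  · intro n hn
    have hn1 : (1 : ℝ) ≤ n := by exact_mod_cast hn
    constructor
    · intro habc
      rw [hFrey _ S0 h0 n hn]
      have hp : (0 : ℝ) < 5 * n + 1 := by positivity
      have g1 : (1 : ℝ) ≤ 6 * n / (5 * n + 1) := by
        rw [le_div_iff₀ hp]
        linarith
      have g2 : (6 * n / (5 * n + 1) : ℝ) < 6 / 5 := by
        rw [div_lt_div_iff₀ hp (by norm_num)]
        linarith
      have h3 := hup _ g1 g2 habc
      have h4 : (6 * n / (5 * n + 1) : ℝ) / (2 * (6 - 5 * (6 * n / (5 * n + 1)))) = n / 2 := by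
        have h5 : 6 - 5 * (6 * n / (5 * n + 1) : ℝ) = 6 / (5 * n + 1) := by
          field_simp
          ring
        rw [h5]
        field_simp
      rwa [h4] at h3
    · intro h
      exact (hfl n hn).mp (hS20.trans ((hFrey _ S0 h0 n hn).mp h))
  · intro n hn
    refine ⟨fun x => ?_, (hFrey _ S2 h2 n hn).trans (hfl n hn)⟩
    exact ((hLim _ S2 h2 n hn x).trans (h2.lim x).symm).trans (hfull x)
  · intro q n hn x
    have hPQ : ∀ W a b u, Pool.Agent.Q272.LP.Rel W a b u →
        (j W = q ↔ Pool.Agent.Q272.LP.HasJ q a b) := by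
      intro W a b u hr
      refine Iff.trans ?_ (Pool.Agent.Q272.LP.j_iff q W a b u hr)
      unfold j
      exact div_eq_iff (by exact_mod_cast hr.gmin.1)
    obtain ⟨S, hS⟩ := Pool.Agent.Q272.FR.cls_of (P := fun W => j W = q) (le_max_right C 1) hN' hPQ
      (Pool.Agent.Q272.LP.tc_j q) (Pool.Agent.Q272.FR.ex_j q)
    refine ((hLim _ S hS n hn x).trans (hS.lim x).symm).trans ?_
    refine ((Pool.Agent.Q272.FR.limF_iff_J N _ x).trans
      (Pool.Agent.Q272.FR.limJ_iff (le_max_right C 1) hN' hPQ (12 * x))).trans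
      ((Pool.Agent.Q272.FR.lim_jJ q (Pool.Agent.Q272.FR.ex_j q) (12 * x)).trans ?_)
    constructor
    · intro h
      linarith
    · rintro rfl
      norm_num

end Pool.Agent.Results.MP_c59389_nt.ProductsOfEllipticCurves
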