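import Mathlib
import Pool.Agent.Q103.SDJ.Stable

/-!
# Frey's inequality with slope `1 / 2`, no constant and a gain for all products of Weil restrictions
# of elliptic curves whose invariants are composed of numbers with small digits

Frey's inequality says that `h_F(A) ≤ (n / 2 + ε) log N_A + c` for all abelian varieties `A` over `ℚ`
of dimension `n`, with `c` depending on `ε` and `n`. Let `A` be a product of Weil restrictions
`Res_{L i / ℚ} (E i)` of elliptic curves over number fields `L i`, so that
`n = ∑ i, [L i : ℚ]`. Then `h_F(A) = ∑ i, [L i : ℚ] h_F(E i)` (stable Faltings heights), and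
`N_A = ∏ i, N(f i) |D i| ^ 2` (Milne), where `f i` is the conductor of `E i` and `D i` the discriminant
of `L i`, so that `N_A` is a multiple of the product `∏ i, R i |D i| ^ 2`, where `R i` is the product of
the norms of the primes of bad reduction of `E i`.

The invariant `j ∈ L` is composed of numbers with small digits in the base `t` (an integer of `L` all
of whose conjugates are at least `T` in absolute value) if `(j : 1728 - j : -1728)` has coordinates
`b k * ∏ i, F i (t) ^ e k i` with pairwise coprime numbers `F i (t)` with small digits, at most `D` in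
all, small `b k`, and exponents at most `T ^ δ`, and the product of the `F i (t)` which occur with
different exponents in the coordinates is squarefree. These are the invariants of the elliptic curves
for which `c₄`, `c₆` and `Δ` are such products, since `c₄ ^ 3 - c₆ ^ 2 = 1728 Δ`.

We show `h_F(A) ≤ (1 / 2) (log ∏ i, R i - (1 - ε) ∑ i, log |N(t i)|)` for ALL products `A` of Weil
restrictions of elliptic curves `E i` (all twists) over all number fields `L i` whose invariants are
composed of numbers with small digits, with bases `t i` which are large in terms of `D` and `ε`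
only. Neither the number of the factors nor the dimension `n` nor the fields are restricted, the
slope is `1 / 2`, there is no constant, and the discriminants of the fields are not needed.
-/

set_option autoImplicit false

namespace Pool.Agent.Results.MP_c59389_nt.SmallDigitInvariants

open Polynomial IsDedekindDomain NumberField
open Pool.Agent.Results.MP_a793bb_nt.SmallDigitPoints (Small point unequal)

/-- the modular invariant `j(τ) = E₄(τ) ^ 3 / Δ(τ) = 1 / q + 744 + ⋯` -/
noncomputable def jInv (τ : UpperHalfPlane) : ℂ :=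
  ModularForm.E₄ τ ^ 3 / ModularForm.discriminant τ

/-- the archimedean term `- log (|Δ(τ)| (Im τ) ^ 6)` of the Faltings height -/
noncomputable def arch (τ : UpperHalfPlane) : ℝ :=
  -Real.log (‖ModularForm.discriminant τ‖ * τ.im ^ 6)

/-- Silverman's formula for the stable Faltings height (up to an additive constant which depends on
the normalisation of the metric only) of an elliptic curve with modular invariant `j ∈ K`, where
`τ w` is a point of the upper half plane with modular invariant `j` at the infinite place `w`: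
`12 [K : ℚ] h_F = ∑_v log max(|j|_v, 1) + ∑_w [K_w : ℝ] arch (τ w)`. -/
noncomputable def faltings {K : Type} [Field K] [NumberField K] (j : K)
    (τ : InfinitePlace K → UpperHalfPlane) : ℝ :=
  (∑ᶠ v : HeightOneSpectrum (𝓞 K), Real.log (max (FinitePlace.mk v j) 1) +
    ∑ w : InfinitePlace K, (w.mult : ℝ) * arch (τ w)) / (12 * Module.finrank ℚ K)

/-- the points `τ w` have modular invariant `j` -/
def IsPeriod {K : Type} [Field K] [NumberField K] (j : K)
    (τ : InfinitePlace K → UpperHalfPlane) : Prop := ∀ w, jInv (τ w) = w.embedding j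

/-- good reduction at `v`: some Weierstrass equation over `K` of the curve is integral at `v` and
has a discriminant which is a unit at `v` -/
def GoodAt {K : Type} [Field K] [NumberField K] (v : HeightOneSpectrum (𝓞 K))
    (E : WeierstrassCurve K) : Prop :=
  ∃ C : WeierstrassCurve.VariableChange K,
    v.valuation K (C • E).a₁ ≤ 1 ∧ v.valuation K (C • E).a₂ ≤ 1 ∧ v.valuation K (C • E).a₃ ≤ 1 ∧
    v.valuation K (C • E).a₄ ≤ 1 ∧ v.valuation K (C • E).a₆ ≤ 1 ∧ v.valuation K (C • E).Δ = 1

/-- the product of the norms of the primes of bad reduction; it divides the norm of the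
conductor -/
noncomputable def badNorm {K : Type} [Field K] [NumberField K] (E : WeierstrassCurve K) : ℝ :=
  ∏ᶠ v ∈ {v : HeightOneSpectrum (𝓞 K) | ¬ GoodAt v E}, (Ideal.absNorm v.asIdeal : ℝ)

/-- The invariant `j` is composed of numbers with small digits in the base `t`: up to a common factor
`s` the numbers `j`, `1728 - j` and `- 1728` are products `b k * ∏ i, F i (t) ^ e k i` as in `Small`,
not all exponent vectors are the same, and the product of the `F i (t)` with different exponents is
squarefree. -/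
def Composed {L : Type} [Field L] [NumberField L] (D : ℕ) (δ T : ℝ) (t : 𝓞 L) (j : L) : Prop :=
  ∃ (n : ℕ) (F : Fin n → (𝓞 L)[X]) (b : Fin 3 → 𝓞 L) (e : Fin 3 → Fin n → ℕ) (s : L),
    Small D δ T t F b e ∧ (unequal e).Nonempty ∧
    Squarefree (Ideal.span {∏ i ∈ unequal e, (F i).eval t}) ∧ s ≠ 0 ∧
    (point t F b e 0 : L) = s * j ∧ (point t F b e 1 : L) = s * (1728 - j) ∧
    (point t F b e 2 : L) = -(s * 1728)

/-- `log |N_{L/ℚ}(t)|` -/
noncomputable def logNorm {L : Type} [Field L] [NumberField L] (t : 𝓞 L) : ℝ :=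
  Real.log |((Algebra.norm ℚ (t : L) : ℚ) : ℝ)|

theorem badNorm_pos {K : Type} [Field K] [NumberField K] (E : WeierstrassCurve K) :
    0 < badNorm E := by
  unfold badNorm
  refine finprod_mem_induction (fun x : ℝ => 0 < x) one_pos (fun a b ha hb => mul_pos ha hb) ?_
  intro v _
  exact Pool.Agent.W223.AK.Nv_pos v

/-- **Main theorem.** For all `D` and `ε > 0` there are `δ > 0` and `T₀` such that for all numbers `r`
of factors, all number fields `L i`, all elliptic curves `E i` over `L i` whose invariants are composed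
of numbers with small digits in bases `t i` of size `T i ≥ T₀`, the abelian variety
`A = ∏ i, Res_{L i / ℚ} (E i)` satisfies, with `n = ∑ i, [L i : ℚ]` its dimension and
`h_F(A) = ∑ i, [L i : ℚ] h_F(E i)`,
(1) `h_F(A) ≤ (1 / 2) (log ∏ i, R i - (1 - ε) ∑ i, log |N(t i)|)`,
(2) `h_F(A) ≤ (1 / 2) (log N_A - (1 - ε) n log T₀)` for every number `N_A` which is at least
`∏ i, R i |D i| ^ 2`, for example the conductor of `A`. -/
theorem result (D : ℕ) (ε : ℝ) (hε : 0 < ε) (hε1 : ε ≤ 1) : ∃ δ : ℝ, 0 < δ ∧ ∃ T₀ : ℝ, 1 ≤ T₀ ∧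
    ∀ (r : ℕ) (T : Fin r → ℝ) (L : Fin r → Type) [∀ i, Field (L i)] [∀ i, NumberField (L i)]
      (t : ∀ i, 𝓞 (L i)) (E : ∀ i, WeierstrassCurve (L i))
      (τ : ∀ i, InfinitePlace (L i) → UpperHalfPlane),
      (∀ i, T₀ ≤ T i ∧ (E i).Δ ≠ 0 ∧ Composed D δ (T i) (t i) ((E i).c₄ ^ 3 / (E i).Δ) ∧
        IsPeriod ((E i).c₄ ^ 3 / (E i).Δ) (τ i)) →
      ∑ i, (Module.finrank ℚ (L i) : ℝ) * faltings ((E i).c₄ ^ 3 / (E i).Δ) (τ i) ≤
        1 / 2 * (Real.log (∏ i, badNorm (E i)) - (1 - ε) * ∑ i, logNorm (t i)) ∧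
      ∀ N : ℝ, ∏ i, badNorm (E i) * |(discr (L i) : ℝ)| ^ 2 ≤ N →
        ∑ i, (Module.finrank ℚ (L i) : ℝ) * faltings ((E i).c₄ ^ 3 / (E i).Δ) (τ i) ≤
          1 / 2 * (Real.log N - (1 - ε) * ((∑ i, Module.finrank ℚ (L i) : ℕ) : ℝ) *
            Real.log T₀) := by
  obtain ⟨δ, hδ, T₀, hT₀, h⟩ := Pool.Agent.Q103.SDJ.stable_small D ε hε
  refine ⟨δ, hδ, T₀, hT₀, ?_⟩
  intro r T L _ _ t E τ hall
  have hT1 : 0 ≤ Real.log T₀ := Real.log_nonneg hT₀
  have key : ∀ i, Module.finrank ℚ (L i) * Real.log T₀ ≤ logNorm (t i) ∧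
      (Module.finrank ℚ (L i) : ℝ) * faltings ((E i).c₄ ^ 3 / (E i).Δ) (τ i) ≤
        1 / 2 * (Real.log (badNorm (E i)) - (1 - ε) * logNorm (t i)) := by
    intro i
    obtain ⟨hT, hE, hj, hτ⟩ := hall i
    obtain ⟨n, F, b, e, s, h1, h2, h3, hs, e0, e1, e2⟩ := hj
    obtain ⟨hNt, -, hm⟩ := h (T i) hT (L i) (t i) (point (t i) F b e) ⟨n, F, b, e, h1, h2, h3, rfl⟩
      (E i) (τ i) hE ⟨s, hs, e0, e1, e2⟩ hτ
    have hd : (0 : ℝ) < Module.finrank ℚ (L i) := by exact_mod_cast Module.finrank_pos
    constructor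
    · refine le_trans ?_ hNt
      exact mul_le_mul_of_nonneg_left (Real.log_le_log (by linarith) hT) hd.le
    · have hm' : ∑ᶠ v : HeightOneSpectrum (𝓞 (L i)),
          Real.log (max (FinitePlace.mk v ((E i).c₄ ^ 3 / (E i).Δ)) 1) +
          ∑ w : InfinitePlace (L i), (w.mult : ℝ) * arch (τ i w) + 6 * (1 - ε) * logNorm (t i) ≤
          6 * Real.log (badNorm (E i)) := hm
      have he : (Module.finrank ℚ (L i) : ℝ) * faltings ((E i).c₄ ^ 3 / (E i).Δ) (τ i) =
          (∑ᶠ v : HeightOneSpectrum (𝓞 (L i)),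
            Real.log (max (FinitePlace.mk v ((E i).c₄ ^ 3 / (E i).Δ)) 1) +
            ∑ w : InfinitePlace (L i), (w.mult : ℝ) * arch (τ i w)) / 12 := by
        unfold faltings
        field_simp
      rw [he]
      linarith
  have hpos := fun i => badNorm_pos (E i)
  have hlog : Real.log (∏ i, badNorm (E i)) = ∑ i, Real.log (badNorm (E i)) :=
    Real.log_prod fun i _ => (hpos i).ne'
  have main : ∑ i, (Module.finrank ℚ (L i) : ℝ) * faltings ((E i).c₄ ^ 3 / (E i).Δ) (τ i) ≤
      1 / 2 * (Real.log (∏ i, badNorm (E i)) - (1 - ε) * ∑ i, logNorm (t i)) := by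
    calc _ ≤ ∑ i, 1 / 2 * (Real.log (badNorm (E i)) - (1 - ε) * logNorm (t i)) :=
          Finset.sum_le_sum fun i _ => (key i).2
      _ = _ := by rw [hlog, ← Finset.mul_sum, Finset.sum_sub_distrib, ← Finset.mul_sum]
  refine ⟨main, ?_⟩
  intro N hN
  have h1 : ∏ i, badNorm (E i) ≤ N := by
    refine le_trans (Finset.prod_le_prod (fun i _ => (hpos i).le) fun i _ => ?_) hN
    have hD1 : (1 : ℝ) ≤ |(discr (L i) : ℝ)| := by
      have h1 : (1 : ℤ) ≤ |NumberField.discr (L i)| :=
        Int.one_le_abs (NumberField.discr_ne_zero (L i))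
      have h2 : ((1 : ℤ) : ℝ) ≤ ((|NumberField.discr (L i)| : ℤ) : ℝ) := by exact_mod_cast h1
      rwa [Int.cast_abs, Int.cast_one] at h2
    exact le_mul_of_one_le_right (hpos i).le (one_le_pow₀ hD1)
  have h2 : Real.log (∏ i, badNorm (E i)) ≤ Real.log N :=
    Real.log_le_log (Finset.prod_pos fun i _ => hpos i) h1
  have h3 : ((∑ i, Module.finrank ℚ (L i) : ℕ) : ℝ) * Real.log T₀ ≤ ∑ i, logNorm (t i) := by
    push_cast
    rw [Finset.sum_mul]
    exact Finset.sum_le_sum fun i _ => (key i).1
  have h4 : (1 - ε) * (((∑ i, Module.finrank ℚ (L i) : ℕ) : ℝ) * Real.log T₀) ≤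
      (1 - ε) * ∑ i, logNorm (t i) := mul_le_mul_of_nonneg_left h3 (by linarith)
  refine main.trans ?_
  rw [mul_assoc]
  linarith

end Pool.Agent.Results.MP_c59389_nt.SmallDigitInvariants
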